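import Pool.Agent.Leo3.Stmts

/-!
Squad leo3: valuations in quadratic fields, rational cubes.
-/

set_option autoImplicit false

open NumberField IsDedekindDomain WithZero Module Polynomial
open Pool.Agent.Helper85_Leo

namespace Pool.Agent.Leo3.H60

/-! ### Conjugation -/

lemma exists_conj {K L : Type*} [Field K] [Field L] [Algebra K L] [Normal K L] (r : L) (c : K)
    (h : r ^ 2 = algebraMap K L c) (hr : ∀ x : K, algebraMap K L x ≠ r) :
    ∃ σ : L ≃ₐ[K] L, σ r = -r := by
  have hint : IsIntegral K r := Normal.isIntegral inferInstance r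
  have hdvd : minpoly K r ∣ X ^ 2 - C c := by
    refine minpoly.dvd K r ?_
    simp [h]
  have hmon : (X ^ 2 - C c : K[X]).Monic := monic_X_pow_sub_C c two_ne_zero
  have hdeg : (X ^ 2 - C c : K[X]).natDegree = 2 := natDegree_X_pow_sub_C
  have hle := natDegree_le_of_dvd hdvd hmon.ne_zero
  rw [hdeg] at hle
  have hne1 : (minpoly K r).natDegree ≠ 1 := by
    intro h1
    rw [minpoly.natDegree_eq_one_iff] at h1
    obtain ⟨x, hx⟩ := h1
    exact hr x hx
  have hpos := minpoly.natDegree_pos hint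
  have h2 : (minpoly K r).natDegree = 2 := by omega
  have heq : minpoly K r = X ^ 2 - C c :=
    (eq_of_monic_of_dvd_of_natDegree_le (minpoly.monic hint) hmon hdvd (by rw [hdeg, h2])).symm
  have hc : IsConjRoot K r (-r) := by
    refine isConjRoot_of_aeval_eq_zero hint ?_
    rw [heq]
    simp [h]
  obtain ⟨σ, hσ⟩ := hc.exists_algEquiv
  rw [map_neg] at hσ
  exact ⟨σ, by linear_combination (-1 : L) * hσ⟩

/-- Every element of a quadratic field is `a + b r`. -/
lemma quad_span {F : Type} [Field F] [NumberField F] {r : F} (hF : finrank ℚ F = 2)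
    (hr : ∀ x : ℚ, (x : F) ≠ r) (z : F) : ∃ a b : ℚ, z = a + b * r := by
  have hli : LinearIndependent ℚ ![(1 : F), r] := by
    rw [LinearIndependent.pair_iff]
    intro s t hst
    have hst' : (s : F) + (t : F) * r = 0 := by
      simpa [Algebra.smul_def] using hst
    by_cases ht : t = 0
    · subst ht
      simp only [Rat.cast_zero, zero_mul, add_zero] at hst'
      exact ⟨by exact_mod_cast hst', rfl⟩
    · exfalso
      have ht' : (t : F) ≠ 0 := by exact_mod_cast ht
      refine hr (-s / t) ?_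
      push_cast
      field_simp
      linear_combination -hst'
  have hspan : ⊤ ≤ Submodule.span ℚ (Set.range ![(1 : F), r]) := by
    rw [hli.span_eq_top_of_card_eq_finrank (by simp [hF])]
  have hz : z ∈ Submodule.span ℚ (Set.range ![(1 : F), r]) := hspan trivial
  simp only [Matrix.range_cons, Matrix.range_empty, Set.union_empty] at hz
  rw [Set.singleton_union, Submodule.mem_span_pair] at hz
  obtain ⟨a, b, hab⟩ := hz
  exact ⟨a, b, by rw [← hab]; simp [Algebra.smul_def]⟩

/-! ### Valuations and automorphisms -/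

lemma exp_eq_of_forall {a b : ℤᵐ⁰} (ha : a ≤ 1) (hb : b ≤ 1) (ha0 : a ≠ 0) (hb0 : b ≠ 0)
    (h : ∀ n : ℕ, a ≤ exp (-(n : ℤ)) ↔ b ≤ exp (-(n : ℤ))) : a = b := by
  have key : ∀ c : ℤᵐ⁰, c ≤ 1 → c ≠ 0 → ∃ n : ℕ, c = exp (-(n : ℤ)) := by
    intro c hc hc0
    have h1 : c = exp (log c) := (exp_log hc0).symm
    have h2 : log c ≤ 0 := by
      rw [h1, ← exp_zero, exp_le_exp] at hc
      exact hc
    refine ⟨(-log c).toNat, ?_⟩
    rw [Int.toNat_of_nonneg (by omega), neg_neg]
    exact h1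
  obtain ⟨n, rfl⟩ := key a ha ha0
  obtain ⟨k, rfl⟩ := key b hb hb0
  have h1 := (h n).1 le_rfl
  have h2 := (h k).2 le_rfl
  exact le_antisymm h2 h1

variable {F : Type} [Field F] [NumberField F]

lemma valuation_conj (σ : F ≃+* F) (q : HeightOneSpectrum (𝓞 F)) :
    ∃ q' : HeightOneSpectrum (𝓞 F), q'.asIdeal = q.asIdeal.comap (RingOfIntegers.mapRingEquiv σ) ∧
      ∀ x : F, q.valuation F (σ x) = q'.valuation F x := by
  obtain ⟨e, he⟩ : ∃ e : 𝓞 F ≃+* 𝓞 F, e = RingOfIntegers.mapRingEquiv σ := ⟨_, rfl⟩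
  have hcoe : ∀ x : 𝓞 F, ((e x : 𝓞 F) : F) = σ (x : F) := by
    intro x; rw [he]; rfl
  obtain ⟨q', hq'⟩ : ∃ q' : HeightOneSpectrum (𝓞 F), q' =
      HeightOneSpectrum.comap (e : 𝓞 F →+* 𝓞 F) e.surjective q := ⟨_, rfl⟩
  have hid : q'.asIdeal = q.asIdeal.comap e := by rw [hq']; rfl
  have hint : ∀ x : 𝓞 F, q.intValuation (e x) = q'.intValuation x := by
    intro x
    by_cases hx : x = 0
    · rw [hx, map_zero, map_zero, map_zero]
    · refine exp_eq_of_forall (q.intValuation_le_one _) (q'.intValuation_le_one _)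
        (q.intValuation_ne_zero _ (by simpa using hx)) (q'.intValuation_ne_zero _ hx) ?_
      intro n
      rw [HeightOneSpectrum.intValuation_le_pow_iff_mem,
        HeightOneSpectrum.intValuation_le_pow_iff_mem, hid]
      have h1 : (Ideal.comap e q.asIdeal) ^ n = Ideal.comap e (q.asIdeal ^ n) := by
        rw [← Ideal.map_symm, ← Ideal.map_symm, Ideal.map_pow]
      rw [h1, Ideal.mem_comap]
  refine ⟨q', by rw [hid, he], ?_⟩
  intro x
  obtain ⟨a, b, hb, rfl⟩ := IsFractionRing.div_surjective (A := 𝓞 F) x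
  rw [map_div₀, map_div₀, map_div₀]
  have h1 : ∀ y : 𝓞 F, σ (algebraMap (𝓞 F) F y) = algebraMap (𝓞 F) F (e y) := fun y => (hcoe y).symm
  rw [h1, h1, HeightOneSpectrum.valuation_of_algebraMap, HeightOneSpectrum.valuation_of_algebraMap,
    HeightOneSpectrum.valuation_of_algebraMap, HeightOneSpectrum.valuation_of_algebraMap, hint, hint]

lemma valCube_conj (σ : F ≃+* F) {z : F} (h : ValCube z) : ValCube (σ z) := by
  intro q hq
  obtain ⟨q', hid, hv⟩ := valuation_conj σ q
  rw [hv]
  refine h q' ?_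
  rw [hid, Ideal.mem_comap]
  intro h6
  apply hq
  have : RingOfIntegers.mapRingEquiv σ (6 : 𝓞 F) = 6 := map_ofNat _ 6
  rw [← this]
  exact h6

end Pool.Agent.Leo3.H60
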