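import Pool.Agent.Helper60_Leo3.Tools2

/-!
Squad leo3, module RED: reduction of `W F` to rational numbers.
-/

set_option autoImplicit false

open NumberField IsDedekindDomain WithZero Module Polynomial
open Pool.Agent.Helper85_Leo

namespace Pool.Agent.Leo3.H60

lemma not_sq3 {m : ℕ} (hm : m % 3 = 1) (x : ℚ_[3]) : x ^ 2 ≠ 3 * (m : ℚ_[3]) := by
  intro h
  have hm0 : m ≠ 0 := by rintro rfl; simp at hm
  have h1 : x ^ 2 = ((3 * m : ℕ) : ℚ_[3]) := by push_cast; exact h
  have h2 := congrArg Padic.valuation h1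
  rw [Padic.valuation_pow, Padic.valuation_natCast, padicValNat.mul (by norm_num) hm0,
    padicValNat_self, padicValNat.eq_zero_of_not_dvd (by omega)] at h2
  push_cast at h2
  omega

lemma exp_cube {a : ℤ} {c : ℤᵐ⁰} (h : exp a = c ^ 3) : (3 : ℤ) ∣ a := by
  have hc : c ≠ 0 := by
    rintro rfl
    rw [zero_pow three_ne_zero] at h
    exact exp_ne_zero h
  rw [← exp_log hc, ← exp_nsmul, exp_inj] at h
  rw [h]
  exact ⟨log c, by simp⟩

lemma dvd_of_mul {e v : ℤ} (he : e = 1 ∨ e = 2) (h : (3 : ℤ) ∣ -(e * v)) : (3 : ℤ) ∣ v := by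
  rcases he with rfl | rfl <;> omega

/-- At the prime 2 the trace is integral. -/
lemma val_two {m : ℕ} (hsq : Squarefree m) (hm : m % 24 = 7) {t₀ s₀ : ℚ}
    (h : t₀ ^ 2 - 4 = 3 * m * s₀ ^ 2) : 0 ≤ padicValRat 2 t₀ := by
  by_contra hcon
  push Not at hcon
  rw [padicValRat_def] at hcon
  have hden : padicValNat 2 t₀.den ≠ 0 := by
    intro h0
    rw [h0] at hcon
    simp only [Nat.cast_zero, sub_zero] at hcon
    have : (0 : ℤ) ≤ (padicValInt 2 t₀.num : ℤ) := Int.natCast_nonneg _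
    omega
  have h2 : 2 ∣ t₀.den := dvd_of_one_le_padicValNat (Nat.one_le_iff_ne_zero.2 hden)
  have hnum : ¬ (2 : ℤ) ∣ t₀.num := by
    intro h3
    have h4 : 2 ∣ t₀.num.natAbs := by omega
    have := Nat.Coprime.eq_one_of_dvd (Nat.Coprime.coprime_dvd_left h4 t₀.reduced) h2
    omega
  obtain ⟨w, hw⟩ : ∃ w : ℚ, w = s₀ * t₀.den := ⟨_, rfl⟩
  have hd0 : (t₀.den : ℚ) ≠ 0 := by exact_mod_cast t₀.den_ne_zero
  have h5 : 3 * (m : ℚ) * w ^ 2 = (t₀.num : ℚ) ^ 2 - 4 * (t₀.den : ℚ) ^ 2 := by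
    have h6 : (t₀.num : ℚ) = t₀ * t₀.den := (Rat.mul_den_eq_num t₀).symm
    rw [hw, h6]
    linear_combination (-(t₀.den : ℚ) ^ 2) * h
  -- w is an integer
  have hcop3 : Nat.Coprime 3 m := (Nat.Prime.coprime_iff_not_dvd Nat.prime_three).2 (by omega)
  have hsq3 : Squarefree (3 * m) := (Nat.squarefree_mul_iff).2 ⟨hcop3, Nat.prime_three.prime.squarefree, hsq⟩
  have hwd : w.den = 1 := by
    have h7 : 3 * (m : ℤ) * w.num ^ 2 = (t₀.num ^ 2 - 4 * (t₀.den : ℤ) ^ 2) * (w.den : ℤ) ^ 2 := by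
      have h8 : (w.num : ℚ) = w * w.den := (Rat.mul_den_eq_num w).symm
      have h9 : (3 * (m : ℚ) * (w.num : ℚ) ^ 2) =
          ((t₀.num : ℚ) ^ 2 - 4 * (t₀.den : ℚ) ^ 2) * (w.den : ℚ) ^ 2 := by
        rw [h8]
        linear_combination (w.den : ℚ) ^ 2 * h5
      exact_mod_cast h9
    have h8 : (w.den : ℤ) ^ 2 ∣ 3 * (m : ℤ) * w.num ^ 2 := by rw [h7]; exact dvd_mul_left _ _
    have h9 : IsCoprime ((w.den : ℤ) ^ 2) (w.num ^ 2) := by
      refine IsCoprime.pow ?_
      have := Rat.isCoprime_num_den w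
      exact this.symm
    have h10 : (w.den : ℤ) ^ 2 ∣ 3 * (m : ℤ) := h9.dvd_of_dvd_mul_right h8
    have h11 : w.den * w.den ∣ 3 * m := by
      have : ((w.den * w.den : ℕ) : ℤ) ∣ ((3 * m : ℕ) : ℤ) := by
        push_cast
        rw [← pow_two]
        exact h10
      exact_mod_cast this
    exact Nat.isUnit_iff.1 (hsq3 _ h11)
  have hwn : w = (w.num : ℚ) := by
    have := Rat.mul_den_eq_num w
    rw [hwd] at this
    simpa using this
  have h12 : 3 * (m : ℤ) * w.num ^ 2 = t₀.num ^ 2 - 4 * (t₀.den : ℤ) ^ 2 := by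
    rw [hwn] at h5
    exact_mod_cast h5
  obtain ⟨k, hk⟩ := h2
  obtain ⟨a, ha⟩ : ∃ a : ℤ, t₀.num = 2 * a + 1 := ⟨t₀.num / 2, by omega⟩
  obtain ⟨j, hj⟩ : ∃ j : ℕ, m = 24 * j + 7 := ⟨m / 24, by omega⟩
  rw [ha, hk, hj] at h12
  push_cast at h12
  have h13 := congrArg (Int.cast : ℤ → ZMod 8) h12
  push_cast at h13
  have h24 : (24 : ZMod 8) = 0 := rfl
  rw [h24] at h13
  generalize (w.num : ZMod 8) = x at h13
  generalize (a : ZMod 8) = y at h13
  generalize (k : ZMod 8) = u at h13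
  generalize (j : ZMod 8) = v at h13
  rw [zero_mul] at h13
  clear h12 hwn hwd hsq3 hcop3 h5 hd0 hw hnum hden hcon hsq hm h hk ha hj
  revert x y u
  decide

/-- From the base field to `Om`. -/
lemma exists_hom (F : Type) [Field F] [NumberField F] : Nonempty (F →+* Om) :=
  ⟨(IsAlgClosed.lift (R := ℚ) (S := F) (M := Om)).toRingHom⟩

lemma no_root {F : Type} [Field F] [NumberField F] {m : ℕ} {r : F} (hr : r ^ 2 = 3 * (m : F))
    (hm : m ≠ 0) {t₀ s₀ : ℚ} (h : t₀ ^ 2 - 4 = 3 * m * s₀ ^ 2) {x : ℚ}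
    (hx : x ^ 3 - 3 * x - t₀ = 0) : ∃ κ : F, κ ^ 3 = ((t₀ : F) + (s₀ : F) * r) / 2 := by
  have hm' : (m : ℚ) ≠ 0 := by exact_mod_cast hm
  have ht : t₀ = x ^ 3 - 3 * x := by linear_combination -hx
  by_cases hx1 : x ^ 2 = 1
  · have h4 : t₀ ^ 2 = 4 := by
      rw [ht]
      have : (x ^ 3 - 3 * x) ^ 2 - 4 = (x ^ 2 - 4) * (x ^ 2 - 1) ^ 2 := by ring
      rw [hx1] at this
      linear_combination this
    have hs : s₀ = 0 := by
      have : 3 * (m : ℚ) * s₀ ^ 2 = 0 := by rw [← h, h4]; norm_num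
      rcases mul_eq_zero.1 this with h5 | h5
      · exfalso
        apply hm'
        linear_combination (1 / 3 : ℚ) * h5
      · exact pow_eq_zero_iff two_ne_zero |>.1 h5
    have hx2 : x = 1 ∨ x = -1 := by
      have : (x - 1) * (x + 1) = 0 := by linear_combination hx1
      rcases mul_eq_zero.1 this with h5 | h5
      · left; linear_combination h5
      · right; linear_combination h5
    rcases hx2 with rfl | rfl
    · refine ⟨-1, ?_⟩
      rw [ht, hs]
      norm_num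
    · refine ⟨1, ?_⟩
      rw [ht, hs]
      norm_num
  · have hx2 : x ^ 2 - 1 ≠ 0 := sub_ne_zero.2 hx1
    have hd : (s₀ / (x ^ 2 - 1)) ^ 2 * (3 * m) = x ^ 2 - 4 := by
      rw [div_pow, div_mul_eq_mul_div, div_eq_iff (pow_ne_zero 2 hx2)]
      have : (x ^ 3 - 3 * x) ^ 2 - 4 = (x ^ 2 - 4) * (x ^ 2 - 1) ^ 2 := by ring
      rw [← this, ← ht]
      linear_combination -h
    obtain ⟨d, hdd⟩ : ∃ d : ℚ, d = s₀ / (x ^ 2 - 1) := ⟨_, rfl⟩
    rw [← hdd] at hd
    have hs : s₀ = d * (x ^ 2 - 1) := by rw [hdd, div_mul_cancel₀ _ hx2]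
    have hd' : (d : F) ^ 2 * r ^ 2 = (x : F) ^ 2 - 4 := by
      rw [hr]
      have := congrArg (Rat.cast : ℚ → F) hd
      push_cast at this
      exact this
    refine ⟨((x : F) + (d : F) * r) / 2, ?_⟩
    rw [ht, hs]
    push_cast
    have h2 : (2 : F) ≠ 0 := two_ne_zero
    field_simp
    linear_combination (3 * (x : F) + (d : F) * r) * hd'

/-- RED. -/
theorem red (hnmf : NmfStmt) : RedStmt := by
  intro F _ _ m r hF hr hsq hm hno z hz hval hloc
  have hm3 : m % 3 = 1 := by omega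
  have hm0 : m ≠ 0 := by rintro rfl; simp at hm
  obtain ⟨φ⟩ := exists_hom F
  -- local situation
  obtain ⟨R, hR⟩ : ∃ R : Om, R = φ r := ⟨_, rfl⟩
  have hR2 : R ^ 2 = 3 * (m : Om) := by rw [hR, ← map_pow, hr, map_mul, map_ofNat, map_natCast]
  have hRn : ∀ x : ℚ_[3], algebraMap ℚ_[3] Om x ≠ R := by
    intro x hx
    refine not_sq3 hm3 x ?_
    apply (algebraMap ℚ_[3] Om).injective
    rw [map_pow, hx, hR2, map_mul, map_ofNat, map_natCast]
  obtain ⟨ρ, hρ⟩ := exists_conj (K := ℚ_[3]) (L := Om) R (3 * (m : ℚ_[3]))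
    (by rw [hR2, map_mul, map_ofNat, map_natCast]) hRn
  have hrn : ∀ x : ℚ, (x : F) ≠ r := by
    intro x hx
    apply hRn (x : ℚ_[3])
    rw [hR, ← hx]
    simp
  -- conjugation
  haveI : Algebra.IsQuadraticExtension ℚ F := ⟨hF⟩
  obtain ⟨τ, hτ⟩ := exists_conj (K := ℚ) (L := F) r (3 * (m : ℚ)) (by rw [hr]; simp)
    (by intro x; exact hrn x)
  obtain ⟨a, b, hab⟩ := quad_span hF hrn z
  have hτz : τ z = a - b * r := by
    rw [hab, map_add, map_mul, hτ, map_ratCast, map_ratCast]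
    ring
  have hτz0 : τ z ≠ 0 := by simpa using hz
  obtain ⟨P, hP⟩ : ∃ P : ℚ, P = a ^ 2 - 3 * m * b ^ 2 := ⟨_, rfl⟩
  have hPz : (P : F) = z * τ z := by
    rw [hτz, hP]
    conv_rhs => rw [hab]
    push_cast
    linear_combination (b : F) ^ 2 * hr
  have hP0 : P ≠ 0 := by
    intro h
    rw [h] at hPz
    rcases mul_eq_zero.1 (by rw [← hPz]; simp : z * τ z = 0) with h1 | h1
    · exact hz h1
    · exact hτz0 h1
  have hP0F : (P : F) ≠ 0 := by exact_mod_cast hP0
  have hvalτ : ValCube (τ z) := valCube_conj (τ : F ≃+* F) hval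
  -- local cube
  obtain ⟨t, ht, ht3⟩ := hloc φ
  obtain ⟨p, q, hpq⟩ := (hnmf F m r hF hr hm3).2 φ t ht
  rw [← hR] at hpq
  have hρt : ρ t = algebraMap ℚ_[3] Om p - algebraMap ℚ_[3] Om q * R := by
    rw [hpq, map_add, map_mul, hρ, AlgEquiv.commutes, AlgEquiv.commutes]
    ring
  have hφz : φ z = a + b * R := by
    rw [hab, map_add, map_mul, hR, map_ratCast, map_ratCast]
  have hφτz : φ (τ z) = ρ (φ z) := by
    rw [hφz, hτz, map_sub, map_mul, map_add, map_mul, hρ, hR, map_ratCast, map_ratCast,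
      map_ratCast, map_ratCast]
    ring
  have hρt3 : (ρ t) ^ 3 = φ (τ z) := by rw [← map_pow, ht3, hφτz]
  obtain ⟨y, hy⟩ : ∃ y : ℚ_[3], y = p ^ 2 - 3 * m * q ^ 2 := ⟨_, rfl⟩
  have hyt : algebraMap ℚ_[3] Om y = t * ρ t := by
    rw [hρt, hy]
    conv_rhs => rw [hpq]
    simp only [map_sub, map_mul, map_pow, map_ofNat, map_natCast]
    linear_combination (algebraMap ℚ_[3] Om q) ^ 2 * hR2
  have hy3 : y ^ 3 = (P : ℚ_[3]) := by
    apply (algebraMap ℚ_[3] Om).injective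
    rw [map_pow, hyt, mul_pow, ht3, hρt3, ← map_mul, ← hPz]
    simp
  have hy0 : y ≠ 0 := by
    rintro rfl
    rw [zero_pow three_ne_zero] at hy3
    exact hP0 (by exact_mod_cast hy3.symm)
  -- the plus part is a cube
  obtain ⟨g, hg⟩ : ∃ g : ℚ, g ^ 3 = P := by
    refine plus_cube hP0 ?_ ⟨y, hy3⟩
    intro l hl h2 h3
    obtain ⟨Q, hQ⟩ := exists_prime_above hF hl
    obtain ⟨e, he, hv⟩ := val_rat hF hl Q hQ
    have h6 := six_notMem hl h2 h3 Q hQ
    obtain ⟨x1, hx1⟩ := hval Q h6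
    obtain ⟨x2, hx2⟩ := hvalτ Q h6
    have h7 : exp (-(e * padicValRat l P)) = (x1 * x2) ^ 3 := by
      rw [← hv P hP0, hPz, map_mul, hx1, hx2, mul_pow]
    exact dvd_of_mul he (exp_cube h7)
  have hg0 : (g : F) ≠ 0 := by
    intro h
    have : g = 0 := by exact_mod_cast h
    rw [this] at hg
    apply hP0
    rw [← hg]
    norm_num
  have hgF : (g : F) ^ 3 = (P : F) := by exact_mod_cast congrArg (Rat.cast : ℚ → F) hg
  -- the minus part
  by_cases hcube : ∃ κ : F, κ ^ 3 = z / τ z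
  · obtain ⟨κ, hκ⟩ := hcube
    have hκ0 : κ ≠ 0 := by
      rintro rfl
      rw [zero_pow three_ne_zero] at hκ
      rcases div_eq_zero_iff.1 hκ.symm with h | h
      · exact hz h
      · exact hτz0 h
    refine ⟨z / (g * κ), ?_⟩
    rw [div_pow, mul_pow, hgF, hκ, hPz]
    field_simp
  · exfalso
    obtain ⟨t₀, ht₀⟩ : ∃ t₀ : ℚ, t₀ = 2 * (a ^ 2 + 3 * m * b ^ 2) / P := ⟨_, rfl⟩
    obtain ⟨s₀, hs₀⟩ : ∃ s₀ : ℚ, s₀ = 4 * a * b / P := ⟨_, rfl⟩
    have hζ : z / τ z = ((t₀ : F) + (s₀ : F) * r) / 2 := by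
      have h1 : z / τ z = z ^ 2 / P := by rw [hPz]; field_simp
      rw [h1, ht₀, hs₀]
      push_cast
      rw [hab]
      field_simp
      linear_combination 2 * (b : F) ^ 2 * hr
    have hζ' : τ z / z = ((t₀ : F) - (s₀ : F) * r) / 2 := by
      have h1 : τ z / z = (τ z) ^ 2 / P := by rw [hPz]; field_simp
      rw [h1, ht₀, hs₀, hτz]
      push_cast
      field_simp
      linear_combination 2 * (b : F) ^ 2 * hr
    have hsum : (t₀ : F) = z / τ z + τ z / z := by rw [hζ, hζ']; ring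
    have hdisc : t₀ ^ 2 - 4 = 3 * m * s₀ ^ 2 := by
      rw [ht₀, hs₀]
      field_simp
      rw [hP]
      ring
    refine hno t₀ s₀ ⟨hdisc, ?_, ?_, ?_⟩
    · intro x hx
      apply hcube
      rw [hζ]
      exact no_root hr hm0 hdisc hx
    · intro l hl h3
      by_cases h2 : l = 2
      · left
        subst h2
        exact val_two hsq hm hdisc
      · by_contra hcon
        push Not at hcon
        obtain ⟨hneg, hndvd⟩ := hcon
        apply hndvd
        have ht00 : t₀ ≠ 0 := by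
          rintro rfl
          rw [padicValRat.zero] at hneg
          exact lt_irrefl _ hneg
        obtain ⟨Q, hQ⟩ := exists_prime_above hF hl
        obtain ⟨e, he, hv⟩ := val_rat hF hl Q hQ
        have h6 := six_notMem hl h2 h3 Q hQ
        obtain ⟨x1, hx1⟩ := hval Q h6
        obtain ⟨x2, hx2⟩ := hvalτ Q h6
        have hgt : 1 < Q.valuation F (t₀ : F) := by
          rw [hv t₀ ht00, ← exp_zero, exp_lt_exp]
          rcases he with rfl | rfl <;> omega
        have hv1 : Q.valuation F (z / τ z) = (x1 / x2) ^ 3 := by rw [map_div₀, hx1, hx2, div_pow]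
        have hv2 : Q.valuation F (τ z / z) = (x2 / x1) ^ 3 := by rw [map_div₀, hx1, hx2, div_pow]
        have hmul : Q.valuation F (z / τ z) * Q.valuation F (τ z / z) = 1 := by
          rw [← map_mul, div_mul_div_comm, mul_comm z, div_self (mul_ne_zero hτz0 hz), map_one]
        have hcub : ∃ c : ℤᵐ⁰, Q.valuation F (t₀ : F) = c ^ 3 := by
          rcases lt_trichotomy (Q.valuation F (z / τ z)) (Q.valuation F (τ z / z)) with h | h | h
          · refine ⟨x2 / x1, ?_⟩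
            rw [hsum, Valuation.map_add_eq_of_lt_right _ h, hv2]
          · exfalso
            have hle := Valuation.map_add (Q.valuation F) (z / τ z) (τ z / z)
            rw [← hsum, ← h, max_self] at hle
            rw [← h] at hmul
            have h8 : Q.valuation F (z / τ z) ≤ 1 := by
              by_contra h9
              push Not at h9
              have := one_lt_mul'' h9 h9
              rw [hmul] at this
              exact lt_irrefl _ this
            exact absurd (hgt.trans_le (hle.trans h8)) (lt_irrefl _)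
          · refine ⟨x1 / x2, ?_⟩
            rw [hsum, Valuation.map_add_eq_of_lt_left _ h, hv1]
        obtain ⟨c, hc⟩ := hcub
        rw [hv t₀ ht00] at hc
        exact dvd_of_mul he (exp_cube hc)
    · refine ⟨2 * (p ^ 2 + 3 * m * q ^ 2) / y, ?_⟩
      obtain ⟨B, hB⟩ : ∃ B : ℚ_[3], B = 2 * (p ^ 2 + 3 * m * q ^ 2) := ⟨_, rfl⟩
      rw [← hB]
      have hBt : algebraMap ℚ_[3] Om B = t ^ 2 + (ρ t) ^ 2 := by
        rw [hρt, hB]
        conv_rhs => rw [hpq]
        simp only [map_add, map_mul, map_pow, map_ofNat, map_natCast]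
        linear_combination (-2 * (algebraMap ℚ_[3] Om q) ^ 2) * hR2
      have hB3 : B ^ 3 - 3 * B * y ^ 2 = ((2 * (a ^ 2 + 3 * m * b ^ 2) : ℚ) : ℚ_[3]) := by
        apply (algebraMap ℚ_[3] Om).injective
        have h9 : φ z ^ 2 + φ (τ z) ^ 2 = 2 * ((a : Om) ^ 2 + 3 * m * (b : Om) ^ 2) := by
          rw [hφτz, hφz, map_add, map_mul, hρ, map_ratCast, map_ratCast]
          linear_combination 2 * (b : Om) ^ 2 * hR2
        have h10 : algebraMap ℚ_[3] Om ((2 * (a ^ 2 + 3 * m * b ^ 2) : ℚ) : ℚ_[3]) =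
            2 * ((a : Om) ^ 2 + 3 * m * (b : Om) ^ 2) := by
          rw [map_ratCast]
          push_cast
          ring
        rw [h10, ← h9, ← ht3, ← hρt3]
        simp only [map_sub, map_mul, map_pow, map_ofNat]
        rw [hBt, hyt]
        ring
      have hPy : ((P : ℚ) : ℚ_[3]) = y ^ 3 := hy3.symm
      rw [ht₀]
      rw [Rat.cast_div, hPy, ← hB3]
      field_simp

end Pool.Agent.Leo3.H60
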