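import Pool.Agent.Helper60_Leo3.RefB

/-!
Squad leo3, module REF: the reflection step.
-/

set_option autoImplicit false

open NumberField IsDedekindDomain WithZero Module Polynomial
open Pool.Agent.Helper85_Leo

namespace Pool.Agent.Leo3.H60

lemma unram {F L : Type} [Field F] [NumberField F] [Field L] [NumberField L] [Algebra F L]
    [IsGalois F L] (hF : finrank ℚ F = 2) (h3 : finrank F L = 3) {t : ℚ}
    (hno : ∀ x : ℚ, x ^ 3 - 3 * x - t ≠ 0)
    (hval : ∀ p : ℕ, p.Prime → p ≠ 3 → 0 ≤ padicValRat p t ∨ (3 : ℤ) ∣ padicValRat p t)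
    (hloc : ∃ x : ℚ_[3], x ^ 3 - 3 * x = (t : ℚ_[3])) {θ : L} (hθ : θ ^ 3 - 3 * θ - t = 0)
    (P : Ideal (𝓞 L)) [hP : P.IsPrime] (hP0 : P ≠ ⊥) : Algebra.IsUnramifiedAt (𝓞 F) P := by
  have hcard : Nat.card (L ≃ₐ[F] L) = 3 := by rw [IsGalois.card_aut_eq_finrank, h3]
  rw [← Ideal.ramificationIdx_eq_one_iff,
    ← Ideal.ramificationIdxIn_eq_ramificationIdx (P.under (𝓞 F)) P (L ≃ₐ[F] L),
    ← Ideal.card_inertia_eq_ramificationIdxIn (G := L ≃ₐ[F] L) (P.under (𝓞 F)) P]
  by_contra hne
  have htop : P.inertia (L ≃ₐ[F] L) = ⊤ := by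
    apply Subgroup.eq_top_of_card_eq
    have h4 := Subgroup.card_subgroup_dvd_card (P.inertia (L ≃ₐ[F] L))
    rw [hcard] at h4
    rw [hcard]
    exact ((Nat.dvd_prime Nat.prime_three).1 h4).resolve_left hne
  have hin : ∀ (σ : L ≃ₐ[F] L) (y : 𝓞 L), σ • y - y ∈ P := by
    intro σ y
    have : σ ∈ P.inertia (L ≃ₐ[F] L) := by rw [htop]; trivial
    exact this y
  have hθF : ∀ y : F, algebraMap F L y ≠ θ := by
    intro y hy
    apply gq_noroot hF hno y
    apply (algebraMap F L).injective
    simp only [map_sub, map_mul, map_pow, map_ratCast, map_ofNat, map_zero, hy]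
    exact hθ
  obtain ⟨σ, hσ⟩ : ∃ σ : L ≃ₐ[F] L, σ θ ≠ θ := by
    by_contra hcon
    push Not at hcon
    obtain ⟨y, hy⟩ := (IsGalois.mem_bot_iff_fixed θ).2 hcon
    exact hθF y hy
  have hσ3 : σ ^ 3 = 1 := by
    rw [← hcard]
    exact pow_card_eq_one'
  have hσ3' : σ (σ (σ θ)) = θ := by
    have := congrArg (fun f : L ≃ₐ[F] L => f θ) hσ3
    simpa [pow_succ] using this
  have hgal : ∀ y : L, (1 : L) * y ^ 3 + 3 * 0 * y ^ 2 + 3 * (-1) * y + (-t) = 0 →
      (1 : L) * (σ y) ^ 3 + 3 * 0 * (σ y) ^ 2 + 3 * (-1) * (σ y) + (-t) = 0 := by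
    intro y hy
    have := congrArg σ hy
    simp only [map_add, map_mul, map_pow, map_ofNat, map_zero, map_neg, map_one,
      map_ratCast] at this
    exact this
  have hx : (1 : L) * θ ^ 3 + 3 * 0 * θ ^ 2 + 3 * (-1) * θ + (-t) = 0 := by
    linear_combination hθ
  have h01 : θ ≠ σ θ := fun h => hσ h.symm
  have h12 : σ θ ≠ σ (σ θ) := fun h => h01 (σ.injective h)
  have h20 : σ (σ θ) ≠ θ := by
    intro h
    apply h01
    have := congrArg σ h
    rw [hσ3'] at this
    exact this
  obtain ⟨v1, v2⟩ := H76.vieta h01 h12 h20 hx (hgal _ hx) (hgal _ (hgal _ hx))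
  have v3 : θ * σ θ * σ (σ θ) = t := by
    have e1 : σ (σ θ) = -θ - σ θ := by linear_combination v1
    rw [e1] at v2 ⊢
    linear_combination θ * v2 + hθ
  have hsm : ∀ y : 𝓞 L, ((σ • y : 𝓞 L) : L) = σ (y : L) := fun y => rfl
  obtain ⟨l, hl, hlP, hmem⟩ := exists_nat_prime P hP hP0
  by_cases hl3 : l = 3
  · -- the prime 3
    subst hl3
    obtain ⟨x, hx3⟩ := hloc
    obtain ⟨k, hk⟩ : ∃ k : ℤ, k = t.den := ⟨_, rfl⟩
    obtain ⟨c, hc⟩ : ∃ c : ℤ, c = (t.den : ℤ) ^ 2 * t.num := ⟨_, rfl⟩
    have hkc : (k : L) ^ 3 * t = c := by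
      have h1 : (t.num : ℚ) = t * t.den := (Rat.mul_den_eq_num t).symm
      have h2 : (k : ℚ) ^ 3 * t = c := by
        rw [hk, hc]
        push_cast
        rw [h1]
        ring
      exact_mod_cast congrArg (Rat.cast : ℚ → L) h2
    have hAi : IsIntegral ℤ ((k : L) * θ) := by
      apply H76.integral_cubic (p := 0) (q := -3 * k ^ 2) (r := -c)
      push_cast
      linear_combination (k : L) ^ 3 * hθ + hkc
    obtain ⟨A, hA⟩ : ∃ A : 𝓞 L, (A : L) = k * θ := ⟨⟨_, hAi⟩, rfl⟩
    obtain ⟨q, hq⟩ : ∃ q : HeightOneSpectrum (𝓞 L), q.asIdeal = P := ⟨⟨P, hP, hP0⟩, rfl⟩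
    -- the valuation is invariant
    obtain ⟨q', hq', hqv⟩ := valuation_conj (σ : L ≃+* L) q
    have hqq : q' = q := by
      apply HeightOneSpectrum.ext
      rw [hq', hq]
      ext y
      rw [Ideal.mem_comap]
      have h5 := hin σ y
      have h6 : (RingOfIntegers.mapRingEquiv (σ : L ≃+* L)) y = σ • y := rfl
      rw [h6]
      constructor
      · intro h7
        have : y = σ • y - (σ • y - y) := by ring
        rw [this]
        exact P.sub_mem h7 h5
      · intro h7
        have : σ • y = (σ • y - y) + y := by ring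
        rw [this]
        exact P.add_mem h5 h7
    rw [hqq] at hqv
    have hqi : ∀ y : 𝓞 L, q.intValuation (σ • y) = q.intValuation y := by
      intro y
      rw [← HeightOneSpectrum.valuation_of_algebraMap (K := L) q y, ← hqv,
        ← HeightOneSpectrum.valuation_of_algebraMap (K := L) q (σ • y)]
      rfl
    have hAne : A - σ • A ≠ 0 := by
      intro h
      have h5 := congrArg (fun y : 𝓞 L => (y : L)) h
      simp only [map_sub, map_zero, hsm, hA, map_mul, map_intCast] at h5
      have h6 : (k : L) * (θ - σ θ) = 0 := by linear_combination h5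
      rcases mul_eq_zero.1 h6 with h7 | h7
      · have h8 : k = 0 := by exact_mod_cast h7
        rw [hk] at h8
        exact t.den_ne_zero (by exact_mod_cast h8)
      · exact h01 (sub_eq_zero.1 h7)
    obtain ⟨j, hj⟩ := exp_of_le_one (q.intValuation_le_one (A - σ • A))
      (q.intValuation_ne_zero _ hAne)
    obtain ⟨n, hn⟩ := approx3 hx3 (3 * j + 1)
    rw [← hc, ← hk] at hn
    -- the product
    have hprod : ((n ^ 3 - 3 * k ^ 2 * n - c : ℤ) : 𝓞 L) =
        ((n : 𝓞 L) - A) * ((n : 𝓞 L) - σ • A) * ((n : 𝓞 L) - σ • σ • A) := by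
      apply RingOfIntegers.ext
      simp only [map_sub, map_mul, map_intCast, hsm, hA]
      push_cast
      linear_combination ((n : L) ^ 2 * k) * v1 - (n : L) * k ^ 2 * v2 + (k : L) ^ 3 * v3 + hkc
    have hs1 : σ • ((n : 𝓞 L) - A) = (n : 𝓞 L) - σ • A := by
      apply RingOfIntegers.ext
      simp only [map_sub, map_intCast, hsm]
    have hs2 : σ • ((n : 𝓞 L) - σ • A) = (n : 𝓞 L) - σ • σ • A := by
      apply RingOfIntegers.ext
      simp only [map_sub, map_intCast, hsm]
    have hw1 : q.intValuation ((n : 𝓞 L) - σ • A) = q.intValuation ((n : 𝓞 L) - A) := by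
      rw [← hs1, hqi]
    have hw2 : q.intValuation ((n : 𝓞 L) - σ • σ • A) = q.intValuation ((n : 𝓞 L) - A) := by
      rw [← hs2, hqi, hw1]
    have h10 : q.intValuation ((n : 𝓞 L) - A) ^ 3 ≤ exp (-((3 * j + 1 : ℕ) : ℤ)) := by
      have h11 : q.intValuation ((n ^ 3 - 3 * k ^ 2 * n - c : ℤ) : 𝓞 L) =
          q.intValuation ((n : 𝓞 L) - A) ^ 3 := by
        rw [hprod, map_mul, map_mul, hw1, hw2, pow_three']
      rw [← h11, HeightOneSpectrum.intValuation_le_pow_iff_mem]
      obtain ⟨u, hu⟩ := hn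
      rw [hu]
      push_cast
      refine Ideal.mul_mem_right _ _ (Ideal.pow_mem_pow ?_ _)
      rw [hq]
      exact_mod_cast hlP
    have h12 : q.intValuation (A - σ • A) ≤ q.intValuation ((n : 𝓞 L) - A) := by
      have : A - σ • A = ((n : 𝓞 L) - σ • A) - ((n : 𝓞 L) - A) := by ring
      rw [this]
      refine (Valuation.map_sub _ _ _).trans ?_
      rw [hw1, max_self]
    have h13 := (pow_le_pow_left' h12 3).trans h10
    rw [hj, ← exp_nsmul, exp_le_exp] at h13
    simp only [nsmul_eq_mul] at h13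
    push_cast at h13
    omega
  · -- primes different from 3
    obtain ⟨N, n, hNn, hnot⟩ := clear_den hl (hval l hl hl3)
    apply hnot
    have hNL : (N : L) ^ 3 * t = n := by exact_mod_cast congrArg (Rat.cast : ℚ → L) hNn
    have hAi : IsIntegral ℤ ((N : L) * θ) := by
      apply H76.integral_cubic (p := 0) (q := -3 * N ^ 2) (r := -n)
      push_cast
      linear_combination (N : L) ^ 3 * hθ + hNL
    obtain ⟨A, hA⟩ : ∃ A : 𝓞 L, (A : L) = N * θ := ⟨⟨_, hAi⟩, rfl⟩
    have h3P : (3 : 𝓞 L) ∉ P := by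
      intro h
      have h5 : ((3 : ℤ) : 𝓞 L) ∈ P := by exact_mod_cast h
      have h6 := hmem 3 h5
      have h7 : l ∣ 3 := by exact_mod_cast h6
      exact hl3 ((Nat.prime_dvd_prime_iff_eq hl Nat.prime_three).1 h7)
    obtain ⟨c1, c2⟩ := H76.cong P hP h3P (x := A) (y := σ • A) (z := σ • σ • A) (b := (0 : 𝓞 L))
      (e := -(N : 𝓞 L) ^ 2) (hin σ A) (hin σ (σ • A)) (by
        apply RingOfIntegers.ext
        simp only [map_add, map_neg, map_mul, map_intCast, map_ofNat, map_zero, hsm, hA]
        linear_combination (N : L) * v1) (by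
        apply RingOfIntegers.ext
        simp only [map_add, map_neg, map_mul, map_pow, map_intCast, map_ofNat, hsm, hA]
        linear_combination (N : L) ^ 2 * v2)
    constructor
    · apply hmem
      have h5 : (N : 𝓞 L) ^ 2 ∈ P := by
        have : (N : 𝓞 L) ^ 2 = (0 : 𝓞 L) ^ 2 - -(N : 𝓞 L) ^ 2 := by ring
        rw [this]
        exact c2
      exact hP.mem_of_pow_mem _ h5
    · apply hmem
      have h5 : (n : 𝓞 L) = A * (σ • A * σ • σ • A) := by
        apply RingOfIntegers.ext
        simp only [map_mul, map_intCast, hsm, hA]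
        linear_combination (-1 : L) * hNL - (N : L) ^ 3 * v3
      rw [h5]
      refine P.mul_mem_right _ ?_
      have := c1
      rwa [add_zero] at this

/-- REF. -/
theorem ref (hhil : HilStmt) : RefStmt := by
  rintro F _ _ m s hF hs hsq hm ⟨t, s₀, hbad⟩
  have hirr := gq_irr (gq_noroot hF hbad.noroot)
  obtain ⟨L, _, _, θ, hθ, hdeg, htop⟩ := exists_root_field F (gq F (t : F)) hirr
  rw [gq_deg] at hdeg
  rw [aeval_def, ← eval_map, gq_map, gq_eval, map_ratCast] at hθ
  haveI : CharZero L := charZero_of_injective_algebraMap (algebraMap F L).injective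
  haveI : Module.Finite F L := Module.finite_of_finrank_pos (by omega)
  haveI : FiniteDimensional ℚ L := Module.Finite.trans F L
  haveI : NumberField L := ⟨⟩
  haveI : IsGalois F L := gq_galois hs hbad.disc hbad.noroot hθ htop
  have hFL := finrank_mul_finrank ℚ F L
  rw [hF, hdeg] at hFL
  have hm0 : (0 : ℝ) < m := by
    have : 0 < m := by omega
    exact_mod_cast this
  refine hhil F L hdeg ?_ ?_ ?_ ?_
  · intro P hP hP0
    exact unram hF hdeg hbad.noroot hbad.val hbad.loc hθ P hP0
  · -- the unit rank of F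
    have h1 := InfinitePlace.card_add_two_mul_card_eq_rank F
    have h2 : InfinitePlace.nrRealPlaces F = 0 := by
      classical
      rw [InfinitePlace.nrRealPlaces, Fintype.card_eq_zero_iff]
      constructor
      rintro ⟨w, hw⟩
      have h3 := congrArg (InfinitePlace.embedding_of_isReal hw) hs
      rw [map_pow, map_neg, map_natCast] at h3
      nlinarith [sq_nonneg (InfinitePlace.embedding_of_isReal hw s)]
    rw [h2, hF] at h1
    unfold Units.rank
    rw [InfinitePlace.card_eq_nrRealPlaces_add_nrComplexPlaces, h2]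
    omega
  · -- no cube roots of unity
    intro x hx
    have hsn : ∀ y : ℚ, (y : F) ≠ s := by
      intro y hy
      rw [← hy] at hs
      have h5 : y ^ 2 = -(m : ℚ) := by exact_mod_cast hs
      have h6 : (0 : ℚ) < m := by exact_mod_cast hm0
      nlinarith [sq_nonneg y]
    by_contra hx1
    have h5 : x ^ 2 + x + 1 = 0 := by
      have : (x - 1) * (x ^ 2 + x + 1) = 0 := by linear_combination hx
      exact (mul_eq_zero.1 this).resolve_left (sub_ne_zero.2 hx1)
    have h6 : (2 * x + 1) ^ 2 = -3 := by linear_combination 4 * h5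
    obtain ⟨a, b, hab⟩ := quad_span hF hsn (2 * x + 1)
    rw [hab] at h6
    have h7 : ((a ^ 2 - m * b ^ 2 + 3 : ℚ) : F) + ((2 * a * b : ℚ) : F) * s = 0 := by
      push_cast
      linear_combination h6 - (b : F) ^ 2 * hs
    have h8 : 2 * a * b = 0 := by
      by_contra h8
      have h8' : ((2 * a * b : ℚ) : F) ≠ 0 := by exact_mod_cast h8
      apply hsn (-(a ^ 2 - m * b ^ 2 + 3) / (2 * a * b))
      rw [Rat.cast_div, div_eq_iff h8', Rat.cast_neg]
      linear_combination -h7
    rw [h8] at h7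
    simp only [Rat.cast_zero, zero_mul, add_zero] at h7
    have h9 : a ^ 2 - m * b ^ 2 + 3 = 0 := by exact_mod_cast h7
    rcases mul_eq_zero.1 h8 with h10 | h10
    · have ha : a = 0 := by linarith
      rw [ha] at h9
      -- m b² = 3
      have h11 : (m : ℚ) * b ^ 2 = 3 := by linarith
      have hb : b ≠ 0 := by
        rintro rfl
        norm_num at h11
      haveI : Fact (Nat.Prime 3) := ⟨Nat.prime_three⟩
      have h12 := congrArg (padicValRat 3) h11
      have hmq : (m : ℚ) ≠ 0 := by
        have : m ≠ 0 := by omega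
        exact_mod_cast this
      have h13 : padicValRat 3 (3 : ℚ) = 1 := by
        have := padicValRat.self (p := 3) (by norm_num)
        exact_mod_cast this
      have h14 : padicValRat 3 (m : ℚ) = 0 := by
        rw [padicValRat.of_nat, padicValNat.eq_zero_of_not_dvd (by omega)]
        rfl
      rw [padicValRat.mul hmq (pow_ne_zero 2 hb), padicValRat.pow, h13, h14] at h12
      push_cast at h12
      omega
    · rw [h10] at h9
      nlinarith [sq_nonneg a]
  · -- the unit rank of L
    have h1 := InfinitePlace.card_add_two_mul_card_eq_rank L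
    rw [← hFL] at h1
    unfold Units.rank
    rw [InfinitePlace.card_eq_nrRealPlaces_add_nrComplexPlaces]
    omega

end Pool.Agent.Leo3.H60
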