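import Pool.Agent.Helper60_Leo3.Red
import Pool.Agent.Helper76_Leo3.Unr

/-!
Squad leo3, module REF, part A: the cyclic cubic extension.
-/

set_option autoImplicit false

open NumberField IsDedekindDomain WithZero Module Polynomial
open Pool.Agent.Helper85_Leo

namespace Pool.Agent.Leo3.H60

/-- The polynomial `x³ - 3x - t`. -/
noncomputable def gq (E : Type) [Field E] (t : E) : E[X] := X ^ 3 - C 3 * X - C t

lemma gq_eval {E : Type} [Field E] (t x : E) : (gq E t).eval x = x ^ 3 - 3 * x - t := by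
  unfold gq; simp

lemma gq_map {E E' : Type} [Field E] [Field E'] (f : E →+* E') (t : E) :
    (gq E t).map f = gq E' (f t) := by
  unfold gq
  rw [Polynomial.map_sub, Polynomial.map_sub, Polynomial.map_pow, Polynomial.map_mul,
    Polynomial.map_X, Polynomial.map_C, Polynomial.map_C, map_ofNat f]

lemma gq_deg {E : Type} [Field E] (t : E) : (gq E t).natDegree = 3 := by
  unfold gq
  compute_degree!

lemma gq_monic {E : Type} [Field E] (t : E) : (gq E t).Monic := by
  unfold gq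
  monicity!

lemma gq_irr {E : Type} [Field E] {t : E} (h : ∀ x : E, x ^ 3 - 3 * x - t ≠ 0) :
    Irreducible (gq E t) := by
  have hd := gq_deg t
  rw [Polynomial.irreducible_iff_roots_eq_zero_of_degree_le_three (by omega) (by omega)]
  rw [Multiset.eq_zero_iff_forall_notMem]
  intro x hx
  rw [Polynomial.mem_roots (gq_monic t).ne_zero, IsRoot.def, gq_eval] at hx
  exact h x hx

/-- No root in a quadratic field. -/
lemma gq_noroot {F : Type} [Field F] [NumberField F] (hF : finrank ℚ F = 2) {t : ℚ}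
    (h : ∀ x : ℚ, x ^ 3 - 3 * x - t ≠ 0) (y : F) : y ^ 3 - 3 * y - t ≠ 0 := by
  intro hy
  have h1 : aeval y (gq ℚ t) = 0 := by
    rw [aeval_def, ← eval_map, gq_map, gq_eval]
    simpa using hy
  have h2 := minpoly.eq_of_irreducible_of_monic (gq_irr h) h1 (gq_monic t)
  have hint : IsIntegral ℚ y := Algebra.IsIntegral.isIntegral y
  have h3 := minpoly.degree_dvd hint
  rw [← h2, gq_deg, hF] at h3
  omega

lemma exists_root_field (F : Type) [Field F] (f : F[X]) (hf : Irreducible f) :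
    ∃ (L : Type) (_ : Field L) (_ : Algebra F L) (θ : L), aeval θ f = 0 ∧
      finrank F L = f.natDegree ∧ Algebra.adjoin F {θ} = ⊤ := by
  haveI : Fact (Irreducible f) := ⟨hf⟩
  refine ⟨AdjoinRoot f, inferInstance, inferInstance, AdjoinRoot.root f, ?_, ?_,
    AdjoinRoot.adjoinRoot_eq_top⟩
  · rw [AdjoinRoot.aeval_eq, AdjoinRoot.mk_self]
  · rw [(AdjoinRoot.powerBasis hf.ne_zero).finrank, AdjoinRoot.powerBasis_dim]

/-- The cubic extension is Galois. -/
lemma gq_galois {F L : Type} [Field F] [NumberField F] [Field L] [NumberField L] [Algebra F L]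
    {m : ℕ} {s : F} (hs : s ^ 2 = -(m : F)) {t s₀ : ℚ} (hd : t ^ 2 - 4 = 3 * m * s₀ ^ 2)
    (hno : ∀ x : ℚ, x ^ 3 - 3 * x - t ≠ 0) {θ : L} (hθ : θ ^ 3 - 3 * θ - t = 0)
    (htop : Algebra.adjoin F ({θ} : Set L) = ⊤) : IsGalois F L := by
  have h1 : θ ^ 2 - 1 ≠ 0 := by
    intro h
    apply hno (-t / 2)
    have h2 : (t : L) = -2 * θ := by linear_combination (-1 : L) * hθ + θ * h
    have h3 : (((-t / 2) ^ 3 - 3 * (-t / 2) - t : ℚ) : L) = 0 := by
      push_cast
      rw [h2]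
      linear_combination θ * h
    exact_mod_cast h3
  obtain ⟨σ, hσ⟩ : ∃ σ : L, σ = algebraMap F L s := ⟨_, rfl⟩
  have hσ2 : σ ^ 2 = -(m : L) := by
    rw [hσ, ← map_pow, hs, map_neg, map_natCast]
  obtain ⟨δ, hδ⟩ : ∃ δ : L, δ = 3 * s₀ * σ / (θ ^ 2 - 1) := ⟨_, rfl⟩
  have hdL : (t : L) ^ 2 - 4 = 3 * m * (s₀ : L) ^ 2 := by
    have := congrArg (Rat.cast : ℚ → L) hd
    push_cast at this
    exact this
  have hδ2 : δ ^ 2 = 12 - 3 * θ ^ 2 := by
    rw [hδ, div_pow, div_eq_iff (pow_ne_zero 2 h1), mul_pow, mul_pow, hσ2]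
    have ht : (t : L) = θ ^ 3 - 3 * θ := by linear_combination -hθ
    rw [ht] at hdL
    linear_combination (3 : L) * hdL
  have e1 : (2 : L) ≠ 0 := two_ne_zero
  have hfac : (gq F (t : F)).map (algebraMap F L) =
      (X - C θ) * (X - C ((-θ + δ) / 2)) * (X - C ((-θ - δ) / 2)) := by
    have e3 : (X - C θ) * (X - C ((-θ + δ) / 2)) * (X - C ((-θ - δ) / 2)) =
        X ^ 3 - C (θ + (-θ + δ) / 2 + (-θ - δ) / 2) * X ^ 2 +
        C (θ * ((-θ + δ) / 2) + θ * ((-θ - δ) / 2) + ((-θ + δ) / 2) * ((-θ - δ) / 2)) * X -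
        C (θ * ((-θ + δ) / 2) * ((-θ - δ) / 2)) := by
      simp only [C_mul, C_add]
      ring
    have e4 : θ + (-θ + δ) / 2 + (-θ - δ) / 2 = 0 := by ring
    have e5 : θ * ((-θ + δ) / 2) + θ * ((-θ - δ) / 2) + ((-θ + δ) / 2) * ((-θ - δ) / 2) = -3 := by
      linear_combination (-1 / 4 : L) * hδ2
    have e6 : θ * ((-θ + δ) / 2) * ((-θ - δ) / 2) = t := by
      linear_combination (-θ / 4 : L) * hδ2 + hθ
    rw [e3, e4, e5, e6, gq_map, map_ratCast]
    unfold gq
    rw [C_0, C_neg]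
    ring
  have hspl : ((gq F (t : F)).map (algebraMap F L)).Splits := by
    rw [hfac]
    exact ((Splits.X_sub_C _).mul (Splits.X_sub_C _)).mul (Splits.X_sub_C _)
  have hroot : θ ∈ (gq F (t : F)).rootSet L := by
    rw [mem_rootSet]
    refine ⟨(gq_monic _).ne_zero, ?_⟩
    rw [aeval_def, ← eval_map, gq_map, gq_eval, map_ratCast, hθ]
  have : IsSplittingField F L (gq F (t : F)) := by
    refine ⟨hspl, ?_⟩
    rw [eq_top_iff, ← htop]
    exact Algebra.adjoin_mono (Set.singleton_subset_iff.2 hroot)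
  have : Normal F L := Normal.of_isSplittingField (gq F (t : F))
  exact ⟨⟩

end Pool.Agent.Leo3.H60
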