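import Pool.Agent.Helper60_Leo3.RefA

/-!
Squad leo3, module REF, part B: the cyclic cubic extension is unramified.
-/

set_option autoImplicit false

open NumberField IsDedekindDomain WithZero Module Polynomial
open Pool.Agent.Helper85_Leo

namespace Pool.Agent.Leo3.H60

/-- The prime number below. -/
lemma exists_nat_prime {L : Type} [Field L] [NumberField L] (P : Ideal (𝓞 L)) (hP : P.IsPrime)
    (hP0 : P ≠ ⊥) : ∃ l : ℕ, l.Prime ∧ (l : 𝓞 L) ∈ P ∧ ∀ n : ℤ, (n : 𝓞 L) ∈ P → (l : ℤ) ∣ n := by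
  obtain ⟨p, hp⟩ := IsPrincipalIdealRing.principal (P.under ℤ)
  have hmem : ∀ n : ℤ, (n : 𝓞 L) ∈ P → p ∣ n := by
    intro n hn
    have h7 : n ∈ P.under ℤ := by
      rw [Ideal.mem_comap]
      simpa using hn
    rw [hp] at h7
    exact Ideal.mem_span_singleton.1 h7
  have hpP : (p : 𝓞 L) ∈ P := by
    have h7 : p ∈ P.under ℤ := by
      rw [hp]
      exact Ideal.mem_span_singleton_self p
    rw [Ideal.mem_comap] at h7
    simpa using h7
  have hp0 : p ≠ 0 := by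
    rintro rfl
    have h1 : ((Ideal.absNorm P : ℤ) : 𝓞 L) ∈ P := by
      have := Ideal.absNorm_mem P
      simpa using this
    have h2 := hmem _ h1
    rw [zero_dvd_iff] at h2
    have h3 : Ideal.absNorm P = 0 := by exact_mod_cast h2
    rw [Ideal.absNorm_eq_zero_iff] at h3
    exact hP0 h3
  have hpp : Prime p := by
    rw [← Ideal.span_singleton_prime hp0]
    have : (P.under ℤ).IsPrime := inferInstance
    rw [hp] at this
    exact this
  refine ⟨p.natAbs, Int.prime_iff_natAbs_prime.1 hpp, ?_, ?_⟩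
  · rcases Int.natAbs_eq p with h | h
    · have : (p.natAbs : 𝓞 L) = (p : 𝓞 L) := by
        conv_rhs => rw [h]
        rw [Int.cast_natCast]
      rw [this]; exact hpP
    · have : (p.natAbs : 𝓞 L) = -(p : 𝓞 L) := by
        conv_rhs => rw [h]
        rw [Int.cast_neg, Int.cast_natCast, neg_neg]
      rw [this]; exact P.neg_mem hpP
  · intro n hn
    exact Int.natAbs_dvd.2 (hmem n hn)

/-- Clearing denominators. -/
lemma clear_den {t : ℚ} {l : ℕ} (hl : l.Prime)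
    (h : 0 ≤ padicValRat l t ∨ (3 : ℤ) ∣ padicValRat l t) :
    ∃ N n : ℤ, (N : ℚ) ^ 3 * t = n ∧ ¬ ((l : ℤ) ∣ N ∧ (l : ℤ) ∣ n) := by
  haveI : Fact l.Prime := ⟨hl⟩
  have hd0 : (t.den : ℚ) ≠ 0 := by exact_mod_cast t.den_ne_zero
  have hnum : (t.num : ℚ) = t * t.den := (Rat.mul_den_eq_num t).symm
  by_cases hld : l ∣ t.den
  · have hln : ¬ l ∣ t.num.natAbs := by
      intro h3
      exact hl.ne_one (Nat.Coprime.eq_one_of_dvd (Nat.Coprime.coprime_dvd_left h3 t.reduced) hld)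
    have hln' : ¬ (l : ℤ) ∣ t.num := by
      intro h3
      exact hln (Int.natCast_dvd.1 h3)
    have hv : padicValRat l t = -(padicValNat l t.den : ℤ) := by
      rw [padicValRat_def]
      unfold padicValInt
      rw [padicValNat.eq_zero_of_not_dvd hln]
      simp
    have hpos : 1 ≤ padicValNat l t.den := one_le_padicValNat_of_dvd t.den_ne_zero hld
    have h3 : 3 ∣ padicValNat l t.den := by
      rw [hv] at h
      rcases h with h | h
      · omega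
      · omega
    obtain ⟨v, d', hd', hden⟩ := Nat.exists_eq_pow_mul_and_not_dvd t.den_ne_zero l hl.ne_one
    have hd0' : d' ≠ 0 := by rintro rfl; simp at hd'
    have hvv : padicValNat l t.den = v := by
      rw [hden, padicValNat.mul (pow_ne_zero _ hl.ne_zero) hd0', padicValNat.prime_pow,
        padicValNat.eq_zero_of_not_dvd hd', add_zero]
    rw [hvv] at h3
    obtain ⟨j, rfl⟩ := h3
    refine ⟨(d' : ℤ) * (l : ℤ) ^ j, (d' : ℤ) ^ 2 * t.num, ?_, ?_⟩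
    · push_cast
      have hden' : (t.den : ℚ) = (l : ℚ) ^ (3 * j) * d' := by exact_mod_cast hden
      rw [hnum, hden']
      ring
    · rintro ⟨_, h5⟩
      rcases Int.Prime.dvd_mul' hl h5 with h6 | h6
      · have h7 := Int.Prime.dvd_pow' hl h6
        exact hd' (by exact_mod_cast h7)
      · exact hln' h6
  · refine ⟨t.den, (t.den : ℤ) ^ 2 * t.num, ?_, ?_⟩
    · push_cast
      rw [hnum]
      ring
    · rintro ⟨h5, _⟩
      exact hld (by exact_mod_cast h5)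

/-- Approximation of a 3-adic root by integers. -/
lemma approx3 {t : ℚ} {x : ℚ_[3]} (hx : x ^ 3 - 3 * x = (t : ℚ_[3])) (M : ℕ) :
    ∃ n : ℤ, (3 : ℤ) ^ M ∣ n ^ 3 - 3 * (t.den : ℤ) ^ 2 * n - (t.den : ℤ) ^ 2 * t.num := by
  obtain ⟨z, hz⟩ : ∃ z : ℚ_[3], z = t.den * x := ⟨_, rfl⟩
  have hnum : (t.num : ℚ_[3]) = t * t.den := by
    have : (t.num : ℚ) = t * t.den := (Rat.mul_den_eq_num t).symm
    exact_mod_cast congrArg (Rat.cast : ℚ → ℚ_[3]) this
  have hz3 : z ^ 3 = 3 * (t.den : ℚ_[3]) ^ 2 * z + (t.den : ℚ_[3]) ^ 2 * t.num := by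
    rw [hz, hnum, ← hx]
    ring
  have hz1 : ‖z‖ ≤ 1 := by
    by_contra hcon
    push Not at hcon
    have h1 : ‖z ^ 3‖ ≤ max ‖3 * (t.den : ℚ_[3]) ^ 2 * z‖ ‖(t.den : ℚ_[3]) ^ 2 * t.num‖ := by
      rw [hz3]
      exact Padic.nonarchimedean _ _
    have hi : ∀ k : ℤ, ‖(k : ℚ_[3])‖ ≤ 1 := fun k => Padic.norm_int_le_one k
    have h2 : ‖3 * (t.den : ℚ_[3]) ^ 2 * z‖ ≤ ‖z‖ := by
      have := hi (3 * (t.den : ℤ) ^ 2)
      push_cast at this
      rw [norm_mul]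
      exact mul_le_of_le_one_left (norm_nonneg _) this
    have h3 : ‖(t.den : ℚ_[3]) ^ 2 * t.num‖ ≤ ‖z‖ := by
      have := hi ((t.den : ℤ) ^ 2 * t.num)
      push_cast at this
      exact this.trans hcon.le
    have h4 : ‖z‖ ^ 3 ≤ ‖z‖ := by
      rw [norm_pow] at h1
      exact h1.trans (max_le h2 h3)
    nlinarith [sq_nonneg (‖z‖ - 1), mul_pos (show (0 : ℝ) < ‖z‖ by linarith) (show (0 : ℝ) < ‖z‖ by linarith)]
  obtain ⟨w, hw⟩ : ∃ w : ℤ_[3], (w : ℚ_[3]) = z := ⟨⟨z, hz1⟩, rfl⟩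
  have hw3 : w ^ 3 - 3 * (t.den : ℤ_[3]) ^ 2 * w - (t.den : ℤ_[3]) ^ 2 * (t.num : ℤ_[3]) = 0 := by
    apply Subtype.coe_injective
    have h3c : ((3 : ℤ_[3]) : ℚ_[3]) = 3 := rfl
    show ((w ^ 3 - 3 * (t.den : ℤ_[3]) ^ 2 * w - (t.den : ℤ_[3]) ^ 2 * (t.num : ℤ_[3]) : ℤ_[3]) : ℚ_[3]) =
      ((0 : ℤ_[3]) : ℚ_[3])
    rw [PadicInt.coe_sub, PadicInt.coe_sub, PadicInt.coe_mul, PadicInt.coe_mul, PadicInt.coe_mul,
      PadicInt.coe_pow, PadicInt.coe_pow, PadicInt.coe_natCast, PadicInt.coe_intCast, h3c, hw, hz3,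
      PadicInt.coe_zero]
    ring
  have h5 := PadicInt.appr_spec M w
  rw [Ideal.mem_span_singleton] at h5
  refine ⟨(w.appr M : ℤ), ?_⟩
  have h6 := PadicInt.pow_p_dvd_int_iff (p := 3) M
    ((w.appr M : ℤ) ^ 3 - 3 * (t.den : ℤ) ^ 2 * (w.appr M : ℤ) - (t.den : ℤ) ^ 2 * t.num)
  refine h6.1 ?_
  have h7 : (((w.appr M : ℤ) ^ 3 - 3 * (t.den : ℤ) ^ 2 * (w.appr M : ℤ) - (t.den : ℤ) ^ 2 * t.num : ℤ) : ℤ_[3]) =
      -(w - (w.appr M : ℤ_[3])) * (w ^ 2 + w * (w.appr M : ℤ_[3]) + (w.appr M : ℤ_[3]) ^ 2 -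
        3 * (t.den : ℤ_[3]) ^ 2) := by
    push_cast
    linear_combination hw3
  rw [h7]
  exact (dvd_neg.2 h5).mul_right _

end Pool.Agent.Leo3.H60
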