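import Pool.Agent.Helper60_Leo3.Tools

/-!
Squad leo3: valuations of rational numbers, rational cubes.
-/

set_option autoImplicit false

open NumberField IsDedekindDomain WithZero Module Polynomial
open Pool.Agent.Helper85_Leo

namespace Pool.Agent.Leo3.H60

/-! ### Valuations of rational numbers in quadratic fields -/

section

variable {F : Type} [Field F] [NumberField F]

lemma norm_nat (hF : finrank ℚ F = 2) (l : ℕ) :
    Algebra.norm ℤ (l : 𝓞 F) = (l : ℤ) ^ 2 := by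
  have h1 : (l : 𝓞 F) = algebraMap ℤ (𝓞 F) (l : ℤ) := by simp
  rw [h1, Algebra.norm_algebraMap, RingOfIntegers.rank, hF]

lemma exists_prime_above (hF : finrank ℚ F = 2) {l : ℕ} (hl : l.Prime) :
    ∃ q : HeightOneSpectrum (𝓞 F), (l : 𝓞 F) ∈ q.asIdeal := by
  have hnu : ¬ IsUnit (l : 𝓞 F) := by
    intro h
    have h2 := h.map (Algebra.norm ℤ)
    rw [norm_nat hF, Int.isUnit_iff] at h2
    have h3 : (2 : ℤ) ≤ l := by exact_mod_cast hl.two_le
    rcases h2 with h | h <;> nlinarith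
  obtain ⟨P, hP, hle⟩ := Ideal.exists_le_maximal (Ideal.span {(l : 𝓞 F)})
    (by rwa [Ne, Ideal.span_singleton_eq_top])
  have hmem : (l : 𝓞 F) ∈ P := hle (Ideal.mem_span_singleton_self _)
  refine ⟨⟨P, hP.isPrime, ?_⟩, hmem⟩
  intro hbot
  rw [hbot, Ideal.mem_bot] at hmem
  exact hl.ne_zero (by exact_mod_cast hmem)

lemma natCast_notMem {l n : ℕ} (hl : l.Prime) (hn : ¬ l ∣ n) (q : HeightOneSpectrum (𝓞 F))
    (hq : (l : 𝓞 F) ∈ q.asIdeal) : (n : 𝓞 F) ∉ q.asIdeal := by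
  intro hnq
  have hcop : IsCoprime (l : ℤ) (n : ℤ) := by
    rw [Nat.isCoprime_iff_coprime]
    exact (Nat.Prime.coprime_iff_not_dvd hl).2 hn
  obtain ⟨a, b, hab⟩ := hcop
  have h1 : ((a : 𝓞 F)) * (l : 𝓞 F) + (b : 𝓞 F) * (n : 𝓞 F) = 1 := by exact_mod_cast congrArg (Int.cast : ℤ → 𝓞 F) hab
  apply q.isPrime.ne_top
  rw [Ideal.eq_top_iff_one, ← h1]
  exact q.asIdeal.add_mem (q.asIdeal.mul_mem_left _ hq) (q.asIdeal.mul_mem_left _ hnq)

lemma six_notMem {l : ℕ} (hl : l.Prime) (h2 : l ≠ 2) (h3 : l ≠ 3) (q : HeightOneSpectrum (𝓞 F))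
    (hq : (l : 𝓞 F) ∈ q.asIdeal) : (6 : 𝓞 F) ∉ q.asIdeal := by
  have h6 : ¬ l ∣ 6 := by
    intro h
    have : l ∣ 2 * 3 := h
    rcases (Nat.Prime.dvd_mul hl).1 this with h | h
    · exact h2 ((Nat.prime_dvd_prime_iff_eq hl Nat.prime_two).1 h)
    · exact h3 ((Nat.prime_dvd_prime_iff_eq hl Nat.prime_three).1 h)
  have := natCast_notMem hl h6 q hq
  exact_mod_cast this

lemma exp_of_le_one {c : ℤᵐ⁰} (hc : c ≤ 1) (hc0 : c ≠ 0) : ∃ n : ℕ, c = exp (-(n : ℤ)) := by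
  have h1 : c = exp (log c) := (exp_log hc0).symm
  have h2 : log c ≤ 0 := by
    rw [h1, ← exp_zero, exp_le_exp] at hc
    exact hc
  refine ⟨(-log c).toNat, ?_⟩
  rw [Int.toNat_of_nonneg (by omega), neg_neg]
  exact h1

lemma val_rat (hF : finrank ℚ F = 2) {l : ℕ} (hl : l.Prime) (q : HeightOneSpectrum (𝓞 F))
    (hq : (l : 𝓞 F) ∈ q.asIdeal) : ∃ e : ℤ, (e = 1 ∨ e = 2) ∧ ∀ x : ℚ, x ≠ 0 →
      q.valuation F (x : F) = exp (-(e * padicValRat l x)) := by
  haveI : Fact l.Prime := ⟨hl⟩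
  have hl0 : (l : 𝓞 F) ≠ 0 := by exact_mod_cast hl.ne_zero
  obtain ⟨k, hk⟩ := exp_of_le_one (q.intValuation_le_one (l : 𝓞 F)) (q.intValuation_ne_zero _ hl0)
  have hk1 : 1 ≤ k := by
    by_contra h
    have hk0 : k = 0 := by omega
    rw [hk0] at hk
    simp only [Nat.cast_zero, neg_zero, exp_zero] at hk
    have := (q.intValuation_lt_one_iff_mem (l : 𝓞 F)).2 hq
    rw [hk] at this
    exact lt_irrefl _ this
  have hk2 : k ≤ 2 := by
    by_contra h
    have h3 : q.intValuation (l : 𝓞 F) ≤ exp (-((3 : ℕ) : ℤ)) := by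
      rw [hk, exp_le_exp]; push_cast; omega
    rw [HeightOneSpectrum.intValuation_le_pow_iff_dvd] at h3
    have h4 := map_dvd Ideal.absNorm h3
    rw [map_pow, Ideal.absNorm_span_singleton, norm_nat hF, Int.natAbs_pow, Int.natAbs_natCast] at h4
    have h5 : Ideal.absNorm q.asIdeal ∣ l ^ 2 := (dvd_pow_self _ three_ne_zero).trans h4
    have h6 : Ideal.absNorm q.asIdeal ≠ 1 := by
      rw [Ne, Ideal.absNorm_eq_one_iff]
      exact q.isPrime.ne_top
    obtain ⟨j, hj, hj2⟩ := (Nat.dvd_prime_pow hl).1 h5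
    have hj0 : j ≠ 0 := by
      rintro rfl
      rw [pow_zero] at hj2
      exact h6 hj2
    rw [hj2, ← pow_mul, Nat.pow_dvd_pow_iff_le_right hl.one_lt] at h4
    omega
  refine ⟨k, by omega, ?_⟩
  have hvl : q.valuation F (l : F) = exp (-(k : ℤ)) := by
    have := HeightOneSpectrum.valuation_of_algebraMap (K := F) q (l : 𝓞 F)
    rw [hk] at this
    simpa using this
  have hnat : ∀ n : ℕ, n ≠ 0 → q.valuation F (n : F) = exp (-((k : ℤ) * padicValNat l n)) := by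
    intro n hn
    obtain ⟨v, n', hn', rfl⟩ := Nat.exists_eq_pow_mul_and_not_dvd hn l hl.ne_one
    have hn0 : n' ≠ 0 := by rintro rfl; simp at hn'
    have h1 : padicValNat l (l ^ v * n') = v := by
      rw [padicValNat.mul (pow_ne_zero _ hl.ne_zero) hn0, padicValNat.prime_pow,
        padicValNat.eq_zero_of_not_dvd hn', add_zero]
    have h2 : q.valuation F (n' : F) = 1 := by
      have := (HeightOneSpectrum.intValuation_eq_one_iff (v := q) (x := (n' : 𝓞 F))).2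
        (natCast_notMem hl hn' q hq)
      have h3 := HeightOneSpectrum.valuation_of_algebraMap (K := F) q (n' : 𝓞 F)
      rw [this] at h3
      simpa using h3
    rw [h1, Nat.cast_mul, Nat.cast_pow, map_mul, map_pow, h2, hvl, mul_one, ← exp_nsmul]
    congr 1
    simp only [nsmul_eq_mul]
    ring
  intro x hx
  have hnum : x.num ≠ 0 := Rat.num_ne_zero.2 hx
  have h1 : (x : F) = (x.num : F) / (x.den : F) := by
    rw [← Rat.cast_intCast, ← Rat.cast_natCast, ← Rat.cast_div, Rat.num_div_den]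
  have h2 : q.valuation F (x.num : F) = q.valuation F (x.num.natAbs : F) := by
    rcases Int.natAbs_eq x.num with h | h
    · conv_lhs => rw [h]
      rw [Int.cast_natCast]
    · conv_lhs => rw [h]
      rw [Int.cast_neg, Int.cast_natCast, Valuation.map_neg]
  rw [h1, map_div₀, h2, hnat _ (by simpa using hnum), hnat _ x.den_ne_zero, padicValRat_def,
    ← exp_sub]
  congr 1
  unfold padicValInt
  ring

end

/-! ### Rational cubes -/

lemma nat_cube {n : ℕ} (hn : n ≠ 0) (h : ∀ p : ℕ, p.Prime → 3 ∣ padicValNat p n) :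
    ∃ k : ℕ, k ^ 3 = n := by
  refine ⟨∏ p ∈ n.primeFactors, p ^ (padicValNat p n / 3), ?_⟩
  rw [← Finset.prod_pow]
  conv_rhs => rw [← Nat.factorization_prod_pow_eq_self hn]
  rw [Finsupp.prod, Nat.support_factorization]
  refine Finset.prod_congr rfl fun p hp => ?_
  have hpp := Nat.prime_of_mem_primeFactors hp
  rw [Nat.factorization_def _ hpp, ← pow_mul, Nat.div_mul_cancel (h p hpp)]

lemma rat_cube {x : ℚ} (h : ∀ p : ℕ, p.Prime → (3 : ℤ) ∣ padicValRat p x) : ∃ c : ℚ, c ^ 3 = x := by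
  by_cases hx : x = 0
  · exact ⟨0, by simp [hx]⟩
  have hnum : x.num.natAbs ≠ 0 := by simpa using hx
  have hboth : ∀ p : ℕ, p.Prime → 3 ∣ padicValNat p x.num.natAbs ∧ 3 ∣ padicValNat p x.den := by
    intro p hp
    have h1 := h p hp
    rw [padicValRat_def] at h1
    unfold padicValInt at h1
    have h2 : padicValNat p x.num.natAbs = 0 ∨ padicValNat p x.den = 0 := by
      by_contra hcon
      push Not at hcon
      have a1 := dvd_of_one_le_padicValNat (Nat.one_le_iff_ne_zero.2 hcon.1)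
      have a2 := dvd_of_one_le_padicValNat (Nat.one_le_iff_ne_zero.2 hcon.2)
      have := Nat.Coprime.eq_one_of_dvd (Nat.Coprime.coprime_dvd_left a1 x.reduced) a2
      exact hp.ne_one this
    rcases h2 with h2 | h2
    · rw [h2] at h1 ⊢
      refine ⟨dvd_zero _, ?_⟩
      have h3 : (3 : ℤ) ∣ (padicValNat p x.den : ℤ) := by
        have := (dvd_neg (a := (3 : ℤ))).2 h1
        simpa using this
      exact_mod_cast h3
    · rw [h2] at h1 ⊢
      refine ⟨?_, dvd_zero _⟩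
      have h3 : (3 : ℤ) ∣ (padicValNat p x.num.natAbs : ℤ) := by simpa using h1
      exact_mod_cast h3
  obtain ⟨a, ha⟩ := nat_cube hnum fun p hp => (hboth p hp).1
  obtain ⟨b, hb⟩ := nat_cube x.den_ne_zero fun p hp => (hboth p hp).2
  obtain ⟨a', ha'⟩ : ∃ a' : ℤ, a' ^ 3 = x.num := by
    rcases Int.natAbs_eq x.num with h | h
    · exact ⟨a, by rw [h, ← ha]; push_cast; ring⟩
    · exact ⟨-a, by rw [h, ← ha]; push_cast; ring⟩
  refine ⟨(a' : ℚ) / (b : ℚ), ?_⟩
  rw [div_pow]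
  have h1 : ((a' : ℚ)) ^ 3 = (x.num : ℚ) := by exact_mod_cast ha'
  have h2 : ((b : ℚ)) ^ 3 = (x.den : ℚ) := by exact_mod_cast hb
  rw [h1, h2, Rat.num_div_den]

lemma two_pow_cube {k : ℕ} (hk : k < 3) {y : ℚ_[3]} (h : y ^ 3 = 2 ^ k) : k = 0 := by
  have hn2 : ‖(2 : ℚ_[3])‖ = 1 := by
    have := Padic.norm_natCast_eq_one_iff (p := 3) (n := 2)
    have h2 : ‖((2 : ℕ) : ℚ_[3])‖ = 1 := this.2 (by norm_num)
    simpa using h2
  have hy : ‖y‖ = 1 := by
    have h1 : ‖y‖ ^ 3 = 1 := by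
      rw [← norm_pow, h, norm_pow, hn2, one_pow]
    exact (pow_eq_one_iff_of_nonneg (norm_nonneg _) three_ne_zero).1 h1
  obtain ⟨z, hz⟩ : ∃ z : ℤ_[3], (z : ℚ_[3]) = y := ⟨⟨y, hy.le⟩, rfl⟩
  have h2 : z ^ 3 = 2 ^ k := by
    apply Subtype.coe_injective
    have h5 : ((2 : ℤ_[3]) : ℚ_[3]) = 2 := rfl
    show (((z ^ 3 : ℤ_[3])) : ℚ_[3]) = (((2 : ℤ_[3]) ^ k : ℤ_[3]) : ℚ_[3])
    rw [PadicInt.coe_pow, PadicInt.coe_pow, h5, hz, h]
  have h3 := congrArg (PadicInt.toZModPow (p := 3) 2) h2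
  rw [map_pow, map_pow, map_ofNat] at h3
  obtain ⟨w, hw⟩ : ∃ w : ZMod (3 ^ 2), w = PadicInt.toZModPow (p := 3) 2 z := ⟨_, rfl⟩
  rw [← hw] at h3
  clear hw h2 hz hy h hn2
  revert w k
  decide

/-- The plus part. -/
lemma plus_cube {x : ℚ} (hx : x ≠ 0)
    (h : ∀ p : ℕ, p.Prime → p ≠ 2 → p ≠ 3 → (3 : ℤ) ∣ padicValRat p x)
    (h3 : ∃ y : ℚ_[3], y ^ 3 = (x : ℚ_[3])) : ∃ c : ℚ, c ^ 3 = x := by
  obtain ⟨y, hy⟩ := h3
  have h33 : (3 : ℤ) ∣ padicValRat 3 x := by
    have h1 : (x : ℚ_[3]).valuation = padicValRat 3 x := Padic.valuation_ratCast x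
    rw [← h1, ← hy, Padic.valuation_pow]
    exact ⟨_, by push_cast; ring⟩
  obtain ⟨k, hk⟩ : ∃ k : ℕ, (k : ℤ) = padicValRat 2 x % 3 :=
    ⟨(padicValRat 2 x % 3).toNat, Int.toNat_of_nonneg (Int.emod_nonneg _ (by norm_num))⟩
  have hk3 : k < 3 := by
    have := Int.emod_lt_of_pos (padicValRat 2 x) (show (0 : ℤ) < 3 by norm_num)
    omega
  have h2k : (2 : ℚ) ^ k ≠ 0 := by positivity
  obtain ⟨c, hc⟩ : ∃ c : ℚ, c ^ 3 = x / 2 ^ k := by
    refine rat_cube fun p hp => ?_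
    haveI : Fact p.Prime := ⟨hp⟩
    rw [padicValRat.div hx h2k, padicValRat.pow]
    by_cases hp2 : p = 2
    · subst hp2
      have : padicValRat 2 (2 : ℚ) = 1 := by
        have := padicValRat.self (p := 2) (by norm_num)
        simpa using this
      rw [this]
      omega
    · have h0 : padicValRat p (2 : ℚ) = 0 := by
        have h1 : padicValNat p 2 = 0 := padicValNat.eq_zero_of_not_dvd (by
          intro hd
          exact hp2 ((Nat.prime_dvd_prime_iff_eq hp Nat.prime_two).1 hd))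
        have h2 : padicValRat p ((2 : ℕ) : ℚ) = (padicValNat p 2 : ℤ) := padicValRat.of_nat
        rw [h1] at h2
        simpa using h2
      rw [h0, mul_zero, sub_zero]
      by_cases hp3 : p = 3
      · subst hp3; exact h33
      · exact h p hp hp2 hp3
  have hc0 : c ≠ 0 := by
    rintro rfl
    have : x / 2 ^ k = 0 := by rw [← hc]; norm_num
    rcases div_eq_zero_iff.1 this with h | h
    · exact hx h
    · exact h2k h
  have hk0 : k = 0 := by
    refine two_pow_cube hk3 (y := y / (c : ℚ_[3])) ?_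
    have hc0' : (c : ℚ_[3]) ≠ 0 := by exact_mod_cast hc0
    have hc' : (c : ℚ_[3]) ^ 3 * 2 ^ k = (x : ℚ_[3]) := by
      have : c ^ 3 * 2 ^ k = x := by rw [hc]; field_simp
      exact_mod_cast congrArg (Rat.cast : ℚ → ℚ_[3]) this
    rw [div_pow, hy, ← hc']
    field_simp
  refine ⟨c, ?_⟩
  rw [hc, hk0, pow_zero, div_one]

end Pool.Agent.Leo3.H60
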